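import Mathlib

open MeasureTheory Set UnitAddTorus
open scoped ComplexConjugate

namespace Pool.Agent.H.MP_7f688b_an

abbrev X := EuclideanSpace ℝ (Fin 3)
abbrev Z := Fin 3 → ℤ

noncomputable def ch (x b : X) : ℂ :=
  Complex.exp (-(2 * (Real.pi : ℂ) * Complex.I * ((inner ℝ x b : ℝ) : ℂ)))

noncomputable def w (t : ℝ) : ℂ := Complex.exp (-(2 * (Real.pi : ℂ) * Complex.I * (t : ℂ)))

lemma ch_eq (x b : X) : ch x b = w (x 0 * b 0 + x 1 * b 1 + x 2 * b 2) := by
  simp only [ch, w, PiLp.inner_apply, Fin.sum_univ_three, RCLike.inner_apply, conj_trivial]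
  congr 4; ring

lemma w_add (s t : ℝ) : w (s + t) = w s * w t := by
  simp only [w, ← Complex.exp_add]; push_cast; ring_nf

lemma w_ne (t : ℝ) : w t ≠ 0 := Complex.exp_ne_zero _

lemma w_zero : w 0 = 1 := by simp [w]

lemma w_conj (t : ℝ) : conj (w t) = w (-t) := by
  simp only [w, ← Complex.exp_conj, map_mul, Complex.conj_ofReal, Complex.conj_I, map_neg,
    map_ofNat]
  push_cast; ring_nf

lemma w_int (n : ℤ) : w n = 1 := by
  have := Complex.exp_int_mul_two_pi_mul_I (-n)
  rw [w, ← this]; push_cast; ring_nf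

lemma w_half : w (1 / 2) = -1 := by
  rw [w, ← Complex.exp_neg_pi_mul_I]; push_cast; ring_nf

lemma w_norm (t : ℝ) : ‖w t‖ = 1 := by
  have : w t = Complex.exp ((-2 * Real.pi * t : ℝ) * Complex.I) := by
    rw [w]; push_cast; ring_nf
  rw [this, Complex.norm_exp_ofReal_mul_I]

lemma w_one {t : ℝ} (h : w t = 1) : ∃ n : ℤ, t = n := by
  obtain ⟨n, hn⟩ := Complex.exp_eq_one_iff.1 h
  refine ⟨-n, ?_⟩
  have hp : (2 * (Real.pi : ℂ) * Complex.I) ≠ 0 := Complex.two_pi_I_ne_zero
  have : (t : ℂ) = -n := mul_left_cancel₀ hp (by linear_combination -hn)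
  exact_mod_cast this

lemma ch_addl (x y b : X) : ch (x + y) b = ch x b * ch y b := by
  simp only [ch_eq, ← w_add, PiLp.add_apply]; ring_nf

lemma ch_addr (x b b' : X) : ch x (b + b') = ch x b * ch x b' := by
  simp only [ch_eq, ← w_add, PiLp.add_apply]; ring_nf

lemma ch_conj (x b : X) : conj (ch x b) = ch x (-b) := by
  simp only [ch_eq, w_conj, PiLp.neg_apply]; ring_nf

lemma ch_sub (x b b' : X) : ch x b * conj (ch x b') = ch x (b - b') := by
  rw [ch_conj, ← ch_addr, sub_eq_add_neg]

lemma ch_norm (x b : X) : ‖ch x b‖ = 1 := by rw [ch_eq, w_norm]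

lemma ch_ne (x b : X) : ch x b ≠ 0 := by rw [ch_eq]; exact w_ne _

lemma ch_zero (x : X) : ch x 0 = 1 := by simp [ch]

lemma ch_cont (b : X) : Continuous fun x => ch x b := by unfold ch; fun_prop

lemma ch_cont2 : Continuous fun p : X × X => ch p.1 p.2 := by unfold ch; fun_prop

noncomputable def vec (c : Z) : X := WithLp.toLp 2 fun i => (c i : ℝ)

@[simp] lemma vec_ap (c : Z) (i : Fin 3) : vec c i = c i := rfl

lemma vec_add (c d : Z) : vec (c + d) = vec c + vec d := by ext i; simp

lemma vec_sub (c d : Z) : vec (c - d) = vec c - vec d := by ext i; simp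

lemma vec_neg (c : Z) : vec (-c) = -vec c := by ext i; simp

lemma vec_zero : vec 0 = 0 := by ext i; simp

lemma ch_vec (c n : Z) : ch (vec c) (vec n) = 1 := by
  rw [ch_eq, ← w_int (c 0 * n 0 + c 1 * n 1 + c 2 * n 2)]; simp

noncomputable def cl (x : X) : Z := fun i => ⌈x i⌉ - 1

lemma cl_add (x : X) (c : Z) : cl (x + vec c) = cl x + c := by
  ext i
  simp only [cl, PiLp.add_apply, vec_ap, Int.ceil_add_intCast, Pi.add_apply]
  ring

lemma cl_sub (x : X) (c : Z) : cl (x - vec c) = cl x - c := by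
  rw [eq_sub_iff_add_eq, ← cl_add, sub_add_cancel]

lemma cl_meas : Measurable cl := by
  unfold cl
  refine measurable_pi_lambda _ fun i => Measurable.sub_const (Measurable.ceil ?_) _
  fun_prop

lemma cl_ms (C : Set Z) : MeasurableSet (cl ⁻¹' C) := cl_meas MeasurableSet.of_discrete

def Q : Set X := cl ⁻¹' {0}

lemma Q_ms : MeasurableSet Q := cl_ms _

lemma mem_Q (x : X) : x ∈ Q ↔ ∀ i, 0 < x i ∧ x i ≤ 1 := by
  simp only [Q, mem_preimage, mem_singleton_iff, funext_iff, cl, Pi.zero_apply, sub_eq_zero,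
    Int.ceil_eq_iff]
  norm_num

lemma Q_pre : (WithLp.toLp 2) ⁻¹' Q = {x : Fin 3 → ℝ | ∀ i, x i ∈ Ioc ((fun _ => (0:ℝ)) i)
    ((fun _ => (0:ℝ)) i + 1)} := by
  ext x
  simp [mem_Q]

noncomputable def τ : Measure (UnitAddTorus (Fin 3)) := Measure.pi fun _ => AddCircle.haarAddCircle

instance : IsProbabilityMeasure τ := by unfold τ; infer_instance

noncomputable def ρ (t : UnitAddTorus (Fin 3)) : X :=
  WithLp.toLp 2 (measurableEquivPiIoc (fun _ => (0:ℝ)) t).1

lemma hsI : MeasurableSet {x : Fin 3 → ℝ | ∀ i, x i ∈ Ioc ((fun _ => (0:ℝ)) i)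
    ((fun _ => (0:ℝ)) i + 1)} := MeasurableSet.univ_pi' (fun _ => measurableSet_Ioc)

lemma ρ_mp : MeasurePreserving ρ τ (volume.restrict Q) := by
  have h1 := measurePreserving_equivPiIoc (d := Fin 3) (fun _ => (0:ℝ))
  have h2 := measurePreserving_subtype_coe (μa := (volume : Measure (Fin 3 → ℝ))) hsI
  have h3 := (PiLp.volume_preserving_toLp (Fin 3)).restrict_preimage Q_ms
  rw [Q_pre] at h3
  exact h3.comp (h2.comp h1)

lemma ρ_emb : MeasurableEmbedding ρ :=
  (MeasurableEquiv.toLp 2 _).measurableEmbedding.comp ((MeasurableEmbedding.subtype_coe hsI).comp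
    (measurableEquivPiIoc (fun _ => (0:ℝ))).measurableEmbedding)

lemma ρ_four (n : Z) (t : UnitAddTorus (Fin 3)) :
    mFourier (-n) t = ch (ρ t) (vec n) := by
  have e : t = fun i => ((ρ t i : ℝ) : UnitAddCircle) :=
    ((measurableEquivPiIoc (fun _ => (0:ℝ))).symm_apply_apply t).symm
  conv_lhs => rw [e]
  simp only [mFourier, ContinuousMap.coe_mk, Fin.prod_univ_three, fourier_coe_apply, ch_eq, w,
    ← Complex.exp_add, vec_ap, Pi.neg_apply]
  push_cast; ring_nf

lemma vol_Q : volume Q = 1 := by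
  have := ρ_mp.measure_preimage (s := univ) MeasurableSet.univ.nullMeasurableSet
  simpa using this.symm

instance : IsFiniteMeasure (volume.restrict Q) := ⟨by simp [vol_Q]⟩

noncomputable def qh (b : X) : ℂ := ∫ u in Q, ch u b

lemma qh_zero : qh 0 = 1 := by simp [qh, ch_zero, Measure.real, vol_Q]

lemma qh_vec (n : Z) (hn : n ≠ 0) : qh (vec n) = 0 := by
  have h := orthonormal_iff_ite.1 (orthonormal_mFourier (d := Fin 3)) n 0
  rw [if_neg hn] at h
  simp only [ContinuousMap.inner_toLp, ← mFourier_neg, mFourier_zero, ContinuousMap.one_apply,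
    one_mul] at h
  rw [qh, ← ρ_mp.integral_comp ρ_emb, ← h]
  apply integral_congr_ae
  filter_upwards with t
  rw [ρ_four]

lemma compl_Q (G : X → ℂ) (hG : MemLp G 2 (volume.restrict Q))
    (h : ∀ n : Z, ∫ u in Q, G u * ch u (vec n) = 0) : ∀ᵐ u ∂(volume.restrict Q), G u = 0 := by
  have h1 : MemLp (G ∘ ρ) 2 τ := hG.comp_measurePreserving ρ_mp
  let b : HilbertBasis (Fin 3 → ℤ) ℂ (Lp ℂ 2 τ) := mFourierBasis
  have h2 : b.repr (h1.toLp _) = 0 := by
    ext n
    have : b.repr (h1.toLp _) n = ∫ t, mFourier (-n) t • (h1.toLp _) t ∂τ := mFourierBasis_repr _ n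
    rw [this]
    have e := h n
    rw [← ρ_mp.integral_comp ρ_emb] at e
    refine Eq.trans ?_ e
    apply integral_congr_ae
    filter_upwards [h1.coeFn_toLp] with t ht
    rw [ht, ρ_four, smul_eq_mul, mul_comm]; rfl
  have h3 : h1.toLp _ = 0 := by simpa using h2
  have h4 : ∀ᵐ t ∂τ, G (ρ t) = 0 := by
    filter_upwards [h1.coeFn_toLp, Lp.coeFn_zero ℂ 2 τ] with t a c
    rw [h3, c] at a
    exact a.symm
  rw [← ρ_mp.map_eq, ρ_emb.ae_map_iff]
  exact h4

lemma pre_cell (c : Z) : (fun x => x + vec c) ⁻¹' (cl ⁻¹' {c}) = Q := by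
  ext x; simp [Q, cl_add]

lemma mp_cell (c : Z) : MeasurePreserving (fun x : X => x + vec c) (volume.restrict Q)
    (volume.restrict (cl ⁻¹' {c})) := by
  have := (measurePreserving_add_right volume (vec c)).restrict_preimage (cl_ms {c})
  rwa [pre_cell] at this

lemma vol_cell (c : Z) : volume (cl ⁻¹' {c}) = 1 := by
  have := (mp_cell c).measure_preimage (s := univ) MeasurableSet.univ.nullMeasurableSet
  simpa [vol_Q] using this.symm

lemma pre_fin (C : Finset Z) : cl ⁻¹' (C : Set Z) = ⋃ c ∈ C, cl ⁻¹' {c} := by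
  ext x; simp

lemma vol_fin (C : Finset Z) : volume (cl ⁻¹' (C : Set Z)) = C.card := by
  rw [pre_fin, measure_biUnion_finset _ (fun c _ => cl_ms _)]
  · simp [vol_cell]
  · intro c _ d _ h
    exact Disjoint.preimage _ (disjoint_singleton.2 h)

lemma int_cells (C : Finset Z) (F : X → ℂ) (hF : ∀ c ∈ C, IntegrableOn F (cl ⁻¹' {c})) :
    ∫ x in cl ⁻¹' (C : Set Z), F x = ∑ c ∈ C, ∫ u in Q, F (u + vec c) := by
  rw [pre_fin, integral_biUnion_finset C (fun c _ => cl_ms _) _ hF]
  · apply Finset.sum_congr rfl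
    intro c _
    exact ((mp_cell c).integral_comp (measurableEmbedding_addRight _) F).symm
  · intro c _ d _ h
    exact Disjoint.preimage _ (disjoint_singleton.2 h)

lemma ch_memLp (b : X) (μ : Measure X) [IsFiniteMeasure μ] (p : ENNReal) :
    MemLp (fun x => ch x b) p μ :=
  MemLp.of_bound (ch_cont b).aestronglyMeasurable 1
    (Filter.Eventually.of_forall fun x => (ch_norm x b).le)

lemma int_ch (C : Finset Z) (b : X) :
    ∫ x in cl ⁻¹' (C : Set Z), ch x b = (∑ c ∈ C, ch (vec c) b) * qh b := by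
  rw [int_cells, Finset.sum_mul]
  · apply Finset.sum_congr rfl
    intro c _
    simp only [ch_addl, qh]
    rw [integral_mul_const, mul_comm]
  · intro c _
    haveI : IsFiniteMeasure (volume.restrict (cl ⁻¹' {c})) := ⟨by simp [vol_cell]⟩
    exact memLp_one_iff_integrable.1 (ch_memLp b _ 1)

lemma spec (C : Finset Z) {ι : Type} [Countable ι] (l : ι → X)
    (hC : ∀ φ : Z → ℂ, (∀ k, ∑ e ∈ C, φ e * ch (vec e) (l k) = 0) → ∀ c ∈ C, φ c = 0)
    (f : X → ℂ) (hf : MemLp f 2 (volume.restrict (cl ⁻¹' (C : Set Z))))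
    (h : ∀ k n, ∫ x in cl ⁻¹' (C : Set Z), f x * ch x (l k + vec n) = 0) :
    f =ᵐ[volume.restrict (cl ⁻¹' (C : Set Z))] 0 := by
  have mq : ∀ c ∈ C, MemLp (fun u => f (u + vec c)) 2 (volume.restrict Q) := fun c hc =>
    (hf.mono_measure (Measure.restrict_mono (preimage_mono (singleton_subset_iff.2 hc))
      le_rfl)).comp_measurePreserving (mp_cell c)
  have mq2 : ∀ c ∈ C, ∀ β : X, MemLp (fun u => f (u + vec c) * ch (u + vec c) β) 2
      (volume.restrict Q) := fun c hc β => by
    apply (mq c hc).of_le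
    · exact (mq c hc).1.mul ((ch_cont β).comp (continuous_add_right _)).aestronglyMeasurable
    · filter_upwards with u
      rw [norm_mul, ch_norm, mul_one]
  have h1 : ∀ k, ∀ᵐ u ∂(volume.restrict Q),
      ∑ e ∈ C, f (u + vec e) * ch (u + vec e) (l k) = 0 := by
    intro k
    apply compl_Q _ (memLp_finset_sum _ fun e he => mq2 _ he _)
    intro n
    have e2 := int_cells C (fun x => f x * ch x (l k + vec n)) (fun c hc => by
      have := memLp_one_iff_integrable.1 ((mq2 c hc (l k + vec n)).mono_exponent (by norm_num))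
      exact ((mp_cell c).integrable_comp_emb (measurableEmbedding_addRight _)).1 this)
    rw [← integral_finset_sum _
      (fun e he => memLp_one_iff_integrable.1 ((mq2 _ he _).mono_exponent (by norm_num))),
      h k n] at e2
    rw [e2]
    apply integral_congr_ae
    filter_upwards with u
    rw [Finset.sum_mul]
    apply Finset.sum_congr rfl
    intro e _
    rw [ch_addr, ch_addl u _ (vec n), ch_vec]; ring
  have h2 : ∀ᵐ u ∂(volume.restrict Q), ∀ c ∈ C, f (u + vec c) = 0 := by
    filter_upwards [ae_all_iff.2 h1] with u hu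
    apply hC (fun c => f (u + vec c))
    intro k
    have := hu k
    simp only [ch_addl u] at this
    apply mul_left_cancel₀ (ch_ne u (l k))
    rw [mul_zero, ← this, Finset.mul_sum]
    apply Finset.sum_congr rfl
    intro e _; ring
  have h3 : ∀ c ∈ C, ∀ᵐ x ∂(volume.restrict (cl ⁻¹' {c})), f x = 0 := by
    intro c hc
    rw [← (mp_cell c).map_eq, (measurableEmbedding_addRight _).ae_map_iff]
    filter_upwards [h2] with u hu using hu c hc
  rw [pre_fin]
  exact (ae_restrict_biUnion_finset_iff (μ := volume) (fun c : Z => cl ⁻¹' {c}) C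
    (fun x => f x = 0)).2 h3

lemma one_d (u v β : ℝ) (huv : u < v) (h1 : v - u ≤ 1) (hβ : |β| < 1) :
    ∫ x in Ioc u v, w (x * β) ≠ 0 := by
  rw [← intervalIntegral.integral_of_le huv.le]
  by_cases h0 : β = 0
  · subst h0
    simp only [mul_zero, w_zero, intervalIntegral.integral_const]
    simp only [ne_eq, smul_eq_zero, one_ne_zero, or_false]
    exact (sub_pos.2 huv).ne'
  · have hc : (-(2 * (Real.pi : ℂ) * Complex.I * β)) ≠ 0 :=
      neg_ne_zero.2 (mul_ne_zero Complex.two_pi_I_ne_zero (by exact_mod_cast h0))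
    have e : ∀ x : ℝ, w (x * β) = Complex.exp (-(2 * (Real.pi : ℂ) * Complex.I * β) * x) := by
      intro x; rw [w]; push_cast; ring_nf
    simp only [e]
    rw [integral_exp_mul_complex hc]
    apply div_ne_zero _ hc
    rw [← e, ← e, sub_ne_zero]
    intro c
    have : w ((v - u) * β) = 1 := by
      apply mul_right_cancel₀ (w_ne (u * β))
      rw [← w_add, one_mul, ← c]; congr 1; ring
    obtain ⟨n, hn⟩ := w_one this
    have a1 : |(v - u) * β| < 1 := by
      rw [abs_mul, abs_of_pos (sub_pos.2 huv)]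
      nlinarith [abs_nonneg β]
    have a2 : (v - u) * β ≠ 0 := mul_ne_zero (sub_pos.2 huv).ne' h0
    rw [hn] at a1 a2
    have : |n| < 1 := by exact_mod_cast a1
    have : n = 0 := by
      have := abs_lt.1 this
      omega
    exact a2 (by simp [this])

noncomputable def V (a β : X) : ℂ := ∫ x, Q.indicator (fun _ => (1:ℂ)) (x - a) *
  Q.indicator (fun _ => (1:ℂ)) x * ch x β

lemma V_far (a β : X) (i : Fin 3) (h : 1 ≤ |a i|) : V a β = 0 := by
  apply integral_eq_zero_of_ae
  filter_upwards with x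
  by_cases c : x ∈ Q
  · have : x - a ∉ Q := by
      intro d
      have c1 := (mem_Q _).1 c i
      have d1 := (mem_Q _).1 d i
      simp only [PiLp.sub_apply] at d1
      rcases le_abs'.1 h with e | e <;> linarith [c1.1, c1.2, d1.1, d1.2]
    simp [indicator_of_notMem this]
  · simp [indicator_of_notMem c]

lemma V_zero (β : X) : V 0 β = qh β := by
  rw [V, qh, ← integral_indicator Q_ms]
  apply integral_congr_ae
  filter_upwards with x
  by_cases c : x ∈ Q <;> simp [c]

lemma V_near (a β : X) (ha : ∀ i, |a i| < 1) (hβ : ∀ i, |β i| < 1) : V a β ≠ 0 := by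
  have e : V a β = ∏ i, ∫ x in Ioc (max (a i) 0) (min (a i + 1) 1), w (x * β i) := by
    simp only [← integral_indicator measurableSet_Ioc]
    rw [← integral_fintype_prod_volume_eq_prod, V,
      ← (PiLp.volume_preserving_toLp (Fin 3)).integral_comp
        (MeasurableEquiv.toLp 2 _).measurableEmbedding]
    apply integral_congr_ae
    filter_upwards with x
    by_cases c : ∀ i, x i ∈ Ioc (max (a i) 0) (min (a i + 1) 1)
    · have c1 : WithLp.toLp 2 x - a ∈ Q := (mem_Q _).2 fun i => by
        have := c i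
        simp only [mem_Ioc, max_lt_iff, le_min_iff] at this
        simp only [PiLp.sub_apply]
        constructor <;> linarith [this.1.1, this.2.1]
      have c2 : WithLp.toLp 2 x ∈ Q := (mem_Q _).2 fun i => by
        have := c i
        simp only [mem_Ioc, max_lt_iff, le_min_iff] at this
        exact ⟨this.1.2, this.2.2⟩
      simp only [indicator_of_mem c1, indicator_of_mem c2, indicator_of_mem (c _), one_mul, ch_eq,
        w_add, Fin.prod_univ_three]
    · push_neg at c
      obtain ⟨i, hi⟩ := c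
      rw [Finset.prod_eq_zero (Finset.mem_univ i) (indicator_of_notMem hi _)]
      by_cases c1 : WithLp.toLp 2 x - a ∈ Q
      · have : WithLp.toLp 2 x ∉ Q := by
          intro c2
          apply hi
          have d1 := (mem_Q _).1 c1 i
          have d2 := (mem_Q _).1 c2 i
          simp only [PiLp.sub_apply] at d1 d2
          simp only [mem_Ioc, max_lt_iff, le_min_iff]
          refine ⟨⟨?_, d2.1⟩, ?_, d2.2⟩ <;> linarith [d1.1, d1.2]
        simp [indicator_of_notMem this]
      · simp [indicator_of_notMem c1]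
  rw [e, Finset.prod_ne_zero_iff]
  intro i _
  have := abs_lt.1 (ha i)
  apply one_d _ _ _ _ _ (hβ i)
  · simp only [max_lt_iff, lt_min_iff]
    refine ⟨⟨?_, ?_⟩, ?_, ?_⟩ <;> linarith [this.1, this.2]
  · linarith [min_le_right (a i + 1) 1, le_max_right (a i) 0]

end Pool.Agent.H.MP_7f688b_an
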