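import Mathlib

open Finset

namespace Pool.Agent.H.MP_7f688b_an

section act
variable {G : Type} [AddCommGroup G] (k : Type) [CommRing k]

def sh (a : G) : Module.End k (G → k) where
  toFun f := fun x => f (x - a)
  map_add' _ _ := rfl
  map_smul' _ _ := rfl

def shm : Multiplicative G →* Module.End k (G → k) where
  toFun a := sh k a.toAdd
  map_one' := by ext f x; simp [sh]
  map_mul' a b := by
    ext f x
    simp only [sh, toAdd_mul, LinearMap.coe_mk, AddHom.coe_mk, Module.End.mul_apply]
    congr 1; abel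

noncomputable def act : AddMonoidAlgebra k G →ₐ[k] Module.End k (G → k) :=
  AddMonoidAlgebra.lift k (Module.End k (G → k)) G (shm k)

noncomputable def mo (a : G) : AddMonoidAlgebra k G := AddMonoidAlgebra.single a 1

lemma act_mo (a : G) (f : G → k) (x : G) : act k (mo k a) f x = f (x - a) := by
  simp [act, mo, shm, sh]

lemma mo_pow (a : G) (n : ℕ) : mo k a ^ n = mo k (n • a) := by
  simp [mo, AddMonoidAlgebra.single_pow]

lemma mo_mul (a b : G) : mo k a * mo k b = mo k (a + b) := by
  simp [mo, AddMonoidAlgebra.single_mul_single]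

lemma mo_zero : mo k (0 : G) = 1 := rfl

lemma act_sum {ι : Type} [Fintype ι] (t : ι → G) (f : G → k) (x : G) :
    act k (∑ i, mo k (t i)) f x = ∑ i, f (x - t i) := by
  rw [map_sum, LinearMap.sum_apply, Finset.sum_apply]
  simp [act_mo]

lemma act_const (P : AddMonoidAlgebra k G) (c : k) :
    ∃ c' : k, act k P (fun _ => c) = fun _ => c' := by
  induction P using AddMonoidAlgebra.induction_on with
  | of m => exact ⟨c, by ext x; exact act_mo k m _ x⟩
  | add f g hf hg =>
    obtain ⟨a, ha⟩ := hf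
    obtain ⟨b, hb⟩ := hg
    exact ⟨a + b, by rw [map_add, LinearMap.add_apply, ha, hb]; rfl⟩
  | smul r f hf =>
    obtain ⟨a, ha⟩ := hf
    exact ⟨r * a, by rw [map_smul, LinearMap.smul_apply, ha]; rfl⟩

end act

variable {G : Type} [AddCommGroup G]

def Til (g : G → ℕ) (t : Fin 6 → G) : Prop := ∀ x, ∑ i, g (x - t i) = 1

lemma dil_prime (g : G → ℕ) (t : Fin 6 → G) (h : Til g t) (p : ℕ) (hp : p.Prime)
    (h6 : Nat.Coprime p 6) : Til g (fun i => p • t i) := by
  haveI := Fact.mk hp
  haveI : CharP (AddMonoidAlgebra (ZMod p) G) p :=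
    charP_of_injective_algebraMap (R := ZMod p) (RingHom.injective _) p
  let gb : G → ZMod p := fun x => (g x : ZMod p)
  let T : AddMonoidAlgebra (ZMod p) G := ∑ i, mo (ZMod p) (t i)
  have h1 : act (ZMod p) T gb = fun _ => 1 := by
    ext x
    rw [act_sum]
    have := congrArg (fun n : ℕ => (n : ZMod p)) (h x)
    simpa [gb] using this
  have h2 : ∀ c : ZMod p, act (ZMod p) T (fun _ => c) = fun _ => 6 * c := by
    intro c; ext x; rw [act_sum]; simp
  have h3 : ∀ n : ℕ, act (ZMod p) (T ^ (n + 1)) gb = fun _ => 6 ^ n := by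
    intro n
    induction n with
    | zero => simpa using h1
    | succ n ih => rw [pow_succ', map_mul, Module.End.mul_apply, ih, h2, pow_succ']
  have h4 : T ^ p = ∑ i, mo (ZMod p) (p • t i) := by
    rw [sum_pow_char]; simp [mo_pow]
  have h60 : (6 : ZMod p) ≠ 0 := by
    intro e
    have : ((6 : ℕ) : ZMod p) = 0 := by exact_mod_cast e
    rw [ZMod.natCast_eq_zero_iff] at this
    exact hp.one_lt.ne' (Nat.Coprime.eq_one_of_dvd h6 this)
  have h5 : ∀ x, 1 ≤ ∑ i, g (x - p • t i) := by
    intro x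
    have e := h3 (p - 1)
    rw [Nat.sub_add_cancel hp.one_le, h4] at e
    have e2 := congrFun e x
    rw [act_sum] at e2
    rw [Nat.one_le_iff_ne_zero]
    intro z
    have : ((∑ i, g (x - p • t i) : ℕ) : ZMod p) = 6 ^ (p - 1) := by
      rw [← e2]; simp [gb]
    rw [z] at this
    exact pow_ne_zero _ h60 (by simpa using this.symm)
  intro x
  have h7 : ∑ j, ∑ i, g (x + t 0 - t j - p • t i) = 6 := by
    rw [Finset.sum_comm]
    have : ∀ i, ∑ j, g (x + t 0 - t j - p • t i) = 1 := fun i => by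
      rw [← h (x + t 0 - p • t i)]
      exact Finset.sum_congr rfl fun j _ => by congr 1; abel
    simp [this]
  rw [Fin.sum_univ_six] at h7
  have a1 := h5 (x + t 0 - t 1)
  have a2 := h5 (x + t 0 - t 2)
  have a3 := h5 (x + t 0 - t 3)
  have a4 := h5 (x + t 0 - t 4)
  have a5 := h5 (x + t 0 - t 5)
  have a0 := h5 x
  rw [add_sub_cancel_right] at h7
  show ∑ i, g (x - p • t i) = 1
  omega

lemma dil (g : G → ℕ) (r : ℕ) : ∀ t : Fin 6 → G, Til g t → Nat.Coprime r 6 →
    Til g (fun i => r • t i) := by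
  induction r using Nat.recOnMul with
  | zero => intro t _ h; simp at h
  | one => intro t h _; simpa using h
  | prime p hp => intro t h h6; exact dil_prime g t h p hp h6
  | mul a b ha hb =>
    intro t h h6
    have := ha _ (hb t h (Nat.Coprime.coprime_mul_left h6)) (Nat.Coprime.coprime_mul_right h6)
    simpa [mul_smul] using this

lemma cls {K : Type} [Field K] (y z : Fin 6 → K) (h : ∀ j : ℕ, ∑ i, z i * (y i) ^ j = 0)
    (t : Fin 6) [DecidableEq K] : ∑ i ∈ univ.filter (fun i => y i = y t), z i = 0 := by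
  have hP : ∀ P : Polynomial K, ∑ i, z i * P.eval (y i) = 0 := by
    intro P
    induction P using Polynomial.induction_on' with
    | add p q hp hq => simp [mul_add, Finset.sum_add_distrib, hp, hq]
    | monomial n a =>
      simp only [Polynomial.eval_monomial]
      have := congrArg (fun u => a * u) (h n)
      simp only [Finset.mul_sum, mul_zero] at this
      rw [← this]
      exact Finset.sum_congr rfl fun i _ => by ring
  let P : Polynomial K := ∏ s ∈ univ.filter (fun i => y i ≠ y t), (Polynomial.X - Polynomial.C (y s))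
  have hne : P.eval (y t) ≠ 0 := by
    simp only [P, Polynomial.eval_prod, Polynomial.eval_sub, Polynomial.eval_X, Polynomial.eval_C]
    rw [Finset.prod_ne_zero_iff]
    intro s hs
    exact sub_ne_zero.2 (Finset.mem_filter.1 hs).2.symm
  have e := hP P
  rw [← Finset.sum_filter_add_sum_filter_not univ (fun i => y i = y t)] at e
  have e1 : ∑ i ∈ univ.filter (fun i => ¬ y i = y t), z i * P.eval (y i) = 0 := by
    apply Finset.sum_eq_zero
    intro i hi
    simp only [P, Polynomial.eval_prod, Polynomial.eval_sub, Polynomial.eval_X, Polynomial.eval_C]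
    rw [Finset.prod_eq_zero (i := i) hi (sub_self _), mul_zero]
  have e2 : ∑ i ∈ univ.filter (fun i => y i = y t), z i * P.eval (y i) =
      (∑ i ∈ univ.filter (fun i => y i = y t), z i) * P.eval (y t) := by
    rw [Finset.sum_mul]
    exact Finset.sum_congr rfl fun i hi => by rw [(Finset.mem_filter.1 hi).2]
  rw [e1, e2, add_zero] at e
  exact (mul_eq_zero.1 e).resolve_right hne

lemma fieldc {K : Type} [Field K] [CharZero K] (y : Fin 6 → K)
    (h : ∀ r : ℕ, Nat.Coprime r 6 → ∑ i, y i ^ r = 0) (hG : ∀ s t, y s ^ 3 + y t ^ 3 ≠ 0)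
    (h0 : y 0 = 1) (h4 : y 4 = y 1 * y 2 ^ 3) (h5 : y 5 = y 1 * y 3 ^ 3) : False := by
  classical
  have hy : ∀ t, y t ≠ 0 := fun t e => hG t t (by simp [e])
  have c6 : ∀ s t, y s ^ 6 = y t ^ 6 ↔ y s ^ 3 = y t ^ 3 := by
    intro s t
    constructor
    · intro e
      have : (y s ^ 3 + y t ^ 3) * (y s ^ 3 - y t ^ 3) = 0 := by linear_combination e
      exact sub_eq_zero.1 ((mul_eq_zero.1 this).resolve_left (hG s t))
    · intro e
      calc y s ^ 6 = (y s ^ 3) ^ 2 := by ring
        _ = y t ^ 6 := by rw [e]; ring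
  have k1 : ∀ t, ∑ i ∈ univ.filter (fun i => y i ^ 3 = y t ^ 3), y i = 0 := by
    intro t
    have := cls (fun i => y i ^ 6) y (fun j => by
      rw [← h (6 * j + 1) (by simp [Nat.coprime_comm])]
      exact Finset.sum_congr rfl fun i _ => by ring) t
    simpa only [c6] using this
  have k5 : ∀ t, ∑ i ∈ univ.filter (fun i => y i ^ 3 = y t ^ 3), y i ^ 5 = 0 := by
    intro t
    have := cls (fun i => y i ^ 6) (fun i => y i ^ 5) (fun j => by
      rw [← h (6 * j + 5) (by
        rw [Nat.coprime_comm, add_comm, Nat.coprime_add_mul_left_right]; norm_num)]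
      exact Finset.sum_congr rfl fun i _ => by ring) t
    simpa only [c6] using this
  have F1 : ∀ t, (univ.filter (fun i => y i ^ 3 = y t ^ 3)).card =
      3 * (univ.filter (fun i => y i = y t)).card := by
    intro t
    have e : ∑ i ∈ univ.filter (fun i => y i ^ 3 = y t ^ 3),
        (y t ^ 5 + y t ^ 4 * y i + y i ^ 5) =
        ∑ i ∈ univ.filter (fun i => y i ^ 3 = y t ^ 3),
          (if y i = y t then 3 * y t ^ 5 else 0) := by
      apply Finset.sum_congr rfl
      intro i hi
      have hi' := (Finset.mem_filter.1 hi).2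
      split_ifs with c
      · rw [c]; ring
      · have : (y i - y t) * (y t ^ 5 + y t ^ 4 * y i + y i ^ 5) = 0 := by
          linear_combination (y i ^ 3 + y t ^ 3 - y i ^ 2 * y t) * hi'
        exact (mul_eq_zero.1 this).resolve_left (sub_ne_zero.2 c)
    rw [Finset.sum_add_distrib, Finset.sum_add_distrib, ← Finset.mul_sum, k1, k5,
      ← Finset.sum_filter, Finset.filter_filter] at e
    have e3 : univ.filter (fun i => y i ^ 3 = y t ^ 3 ∧ y i = y t) =
        univ.filter (fun i => y i = y t) := by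
      apply Finset.filter_congr
      intro i _
      exact ⟨fun c => c.2, fun c => ⟨by rw [c], c⟩⟩
    rw [e3] at e
    simp only [Finset.sum_const, nsmul_eq_mul, mul_zero, add_zero] at e
    have : ((univ.filter (fun i => y i ^ 3 = y t ^ 3)).card : K) =
        3 * (univ.filter (fun i => y i = y t)).card :=
      mul_right_cancel₀ (pow_ne_zero 5 (hy t)) (by linear_combination e)
    exact_mod_cast this
  have le6 : ∀ s : Finset (Fin 6), s.card ≤ 6 := fun s => by simpa using Finset.card_le_univ s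
  have inj : ∀ s t, s ≠ t → y s ≠ y t := by
    intro s t hst e
    have m2 : 2 ≤ (univ.filter (fun i => y i = y t)).card := by
      rw [← Finset.card_pair hst]
      apply Finset.card_le_card
      intro i hi
      simp only [Finset.mem_insert, Finset.mem_singleton] at hi
      rcases hi with rfl | rfl <;> simp [e]
    have a : (univ.filter (fun i => y i ^ 3 = y t ^ 3)) = univ := by
      apply Finset.eq_univ_of_card
      have := F1 t
      have := le6 (univ.filter (fun i => y i ^ 3 = y t ^ 3))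
      simp only [Fintype.card_fin]
      omega
    have al : ∀ i, y i ^ 3 = y t ^ 3 := fun i => by
      have : i ∈ univ.filter (fun i => y i ^ 3 = y t ^ 3) := by rw [a]; exact mem_univ _
      exact (Finset.mem_filter.1 this).2
    have e2 : y 2 ^ 3 = 1 := by rw [al 2, ← al 0, h0]; ring
    have e3 : y 3 ^ 3 = 1 := by rw [al 3, ← al 0, h0]; ring
    have m3 : 3 ≤ (univ.filter (fun i => y i = y 1)).card := by
      have : ({1, 4, 5} : Finset (Fin 6)).card = 3 := by decide
      rw [← this]
      apply Finset.card_le_card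
      intro i hi
      simp only [Finset.mem_insert, Finset.mem_singleton] at hi
      rcases hi with rfl | rfl | rfl <;> simp [h4, h5, e2, e3]
    have := F1 1
    have := le6 (univ.filter (fun i => y i ^ 3 = y 1 ^ 3))
    omega
  have n02 : y 2 ^ 3 ≠ y 0 ^ 3 := fun e => inj 4 1 (by decide) (by rw [h4, e, h0]; ring)
  have n03 : y 3 ^ 3 ≠ y 0 ^ 3 := fun e => inj 5 1 (by decide) (by rw [h5, e, h0]; ring)
  have n23 : y 3 ^ 3 ≠ y 2 ^ 3 := fun e => inj 5 4 (by decide) (by rw [h5, h4, e])
  have g3 : ∀ t, 3 ≤ (univ.filter (fun i => y i ^ 3 = y t ^ 3)).card := by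
    intro t
    have : 0 < (univ.filter (fun i => y i = y t)).card := Finset.card_pos.2 ⟨t, by simp⟩
    have := F1 t
    omega
  have dj : ∀ s t, y s ^ 3 ≠ y t ^ 3 → Disjoint (univ.filter (fun i => y i ^ 3 = y s ^ 3))
      (univ.filter (fun i => y i ^ 3 = y t ^ 3)) := by
    intro s t hst
    rw [Finset.disjoint_filter]
    intro i _ a b
    exact hst (a.symm.trans b)
  have u := le6 (univ.filter (fun i => y i ^ 3 = y 3 ^ 3) ∪
    (univ.filter (fun i => y i ^ 3 = y 2 ^ 3) ∪ univ.filter (fun i => y i ^ 3 = y 0 ^ 3)))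
  rw [Finset.card_union_of_disjoint (Finset.disjoint_union_right.2 ⟨dj _ _ n23, dj _ _ n03⟩),
    Finset.card_union_of_disjoint (dj _ _ n02)] at u
  have := g3 0
  have := g3 2
  have := g3 3
  omega

theorem notile (g : G → ℕ) (t : Fin 6 → G) (h0 : t 0 = 0) (h4 : t 4 = t 1 + 3 • t 2)
    (h5 : t 5 = t 1 + 3 • t 3) : ¬ Til g t := by
  intro h
  let gq : G → ℚ := fun x => (g x : ℚ)
  let R := AddMonoidAlgebra ℚ G
  let I : Ideal R :=
    { carrier := {P | ∃ c : ℚ, act ℚ P gq = fun _ => c}
      zero_mem' := ⟨0, by rw [map_zero]; rfl⟩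
      add_mem' := by
        rintro a b ⟨c, hc⟩ ⟨d, hd⟩
        exact ⟨c + d, by rw [map_add, LinearMap.add_apply, hc, hd]; rfl⟩
      smul_mem' := by
        rintro a b ⟨c, hc⟩
        obtain ⟨d, hd⟩ := act_const ℚ a c
        exact ⟨d, by rw [smul_eq_mul, map_mul, Module.End.mul_apply, hc, hd]⟩ }
  have hT : ∀ r : ℕ, Nat.Coprime r 6 → act ℚ (∑ i, mo ℚ (r • t i)) gq = fun _ => 1 := by
    intro r hr
    ext x
    rw [act_sum]
    have := congrArg (fun n : ℕ => (n : ℚ)) (dil g r t h hr x)
    simpa [gq] using this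
  let Good : R → Prop := fun P => (∀ f : G → ℚ, (∀ x, ∃ n : ℤ, f x = n) →
      ∀ x, ∃ n : ℤ, act ℚ P f x = n) ∧ ∃ m : ℕ, act ℚ P (fun _ => 1) = fun _ => 2 ^ m
  have G1 : Good 1 := ⟨fun f hf => by simpa using hf, 0, by simp⟩
  have Gm : ∀ a b, Good a → Good b → Good (a * b) := by
    rintro a b ⟨ha, m, hm⟩ ⟨hb, n, hn⟩
    refine ⟨fun f hf => ?_, m + n, ?_⟩
    · rw [map_mul, Module.End.mul_apply]; exact ha _ (hb f hf)
    · rw [map_mul, Module.End.mul_apply, hn]
      have : (fun _ : G => (2 : ℚ) ^ n) = (2 : ℚ) ^ n • fun _ => (1 : ℚ) := by ext; simp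
      rw [this, map_smul, hm]; ext; simp [pow_add, mul_comm]
  have Gs : ∀ a b : G, Good (mo ℚ a + mo ℚ b) := by
    intro a b
    refine ⟨fun f hf x => ?_, 1, ?_⟩
    · obtain ⟨n, hn⟩ := hf (x - a)
      obtain ⟨m, hm⟩ := hf (x - b)
      exact ⟨n + m, by rw [map_add, LinearMap.add_apply, Pi.add_apply, act_mo, act_mo, hn, hm]; simp⟩
    · ext x
      rw [map_add, LinearMap.add_apply, Pi.add_apply, act_mo, act_mo]; norm_num
  let Gg : R := ∏ st : Fin 6 × Fin 6, (mo ℚ (3 • t st.1) + mo ℚ (3 • t st.2))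
  have GG : Good Gg := Finset.prod_induction _ Good Gm G1 fun _ _ => Gs _ _
  have nr : Gg ∉ I.radical := by
    rintro ⟨N, c, hc⟩
    have GN : Good (Gg ^ N) := by
      induction N with
      | zero => simpa using G1
      | succ n ih => 
        clear hc ih
        induction n with
        | zero => simpa using GG
        | succ n ih => rw [pow_succ]; exact Gm _ _ ih GG
    obtain ⟨hi, m, hm⟩ := GN
    obtain ⟨n, hn⟩ := hi gq (fun x => ⟨g x, by simp [gq]⟩) 0
    rw [hc] at hn
    have e1 := hT 1 (by simp)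
    have e2 : act ℚ ((∑ i, mo ℚ (1 • t i)) * Gg ^ N) gq 0 = 6 * c := by
      rw [map_mul, Module.End.mul_apply, hc, act_sum]; simp
    rw [mul_comm, map_mul, Module.End.mul_apply, e1, hm] at e2
    simp only at hn e2
    rw [hn] at e2
    have e3 : (2 : ℤ) ^ m = 6 * n := by exact_mod_cast e2
    have : (3 : ℤ) ∣ 2 ^ m := ⟨2 * n, by rw [e3]; ring⟩
    have := Int.prime_three.dvd_of_dvd_pow this
    norm_num at this
  rw [Ideal.radical_eq_sInf, Submodule.mem_sInf] at nr
  push_neg at nr
  obtain ⟨J, ⟨hIJ, hJ⟩, hGJ⟩ := nr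
  haveI := hJ
  let K := FractionRing (R ⧸ J)
  let φ : R →+* K := (algebraMap (R ⧸ J) K).comp (Ideal.Quotient.mk J)
  have hφ : ∀ P, φ P = 0 ↔ P ∈ J := fun P => by
    simp only [φ, RingHom.comp_apply]
    rw [map_eq_zero_iff _ (IsFractionRing.injective _ _), Ideal.Quotient.eq_zero_iff_mem]
  haveI : CharZero K := algebraRat.charZero K
  refine fieldc (fun i => φ (mo ℚ (t i))) (fun r hr => ?_) (fun s u e => ?_) ?_ ?_ ?_
  · have : φ (∑ i, mo ℚ (r • t i)) = 0 := (hφ _).2 (hIJ ⟨1, hT r hr⟩)
    rw [← this, map_sum]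
    exact Finset.sum_congr rfl fun i _ => by rw [← map_pow, mo_pow]
  · apply hGJ
    rw [← hφ, map_prod]
    apply Finset.prod_eq_zero (mem_univ (s, u))
    rw [map_add, ← mo_pow, ← mo_pow, map_pow, map_pow]
    exact e
  · simp only [h0, mo_zero, map_one]
  · simp only [h4, ← mo_mul, ← mo_pow, map_mul, map_pow]
  · simp only [h5, ← mo_mul, ← mo_pow, map_mul, map_pow]

end Pool.Agent.H.MP_7f688b_an
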