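import Pool.Agent.H.MP_7f688b_an.A
import Pool.Agent.H.MP_7f688b_an.B

open MeasureTheory Set
open scoped ComplexConjugate InnerProductSpace ENNReal

namespace Pool.Agent.H.MP_7f688b_an

lemma tonelli {G : Type} [AddCommGroup G] [MeasurableSpace G] [MeasurableAdd₂ G] [MeasurableNeg G]
    (μ : Measure G) [μ.IsAddLeftInvariant] [μ.IsNegInvariant] {ι : Type} [Countable ι]
    (s : ι → G) (f g : G → ℝ≥0∞) (hf : Measurable f) (hg : Measurable g) (z : G) :
    ∫⁻ y, f y * ∑' i, g (z - y - s i) ∂μ = ∫⁻ u, g u * ∑' i, f (z - u - s i) ∂μ := by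
  simp only [← ENNReal.tsum_mul_left]
  rw [lintegral_tsum (fun i => by fun_prop), lintegral_tsum (fun i => by fun_prop)]
  congr 1
  ext i
  rw [← lintegral_sub_left_eq_self (fun y => f y * g (z - y - s i)) (z - s i)]
  congr 1
  ext u
  rw [mul_comm]
  congr 2 <;> abel

noncomputable def gQ (a b x : X) : ℂ := Q.indicator (fun _ => (1:ℂ)) (x - a) * ch x b

lemma gQ_mem (a b : X) : MemLp (gQ a b) 2 volume := by
  have h1 : MemLp (Q.indicator (fun _ => (1:ℂ))) 2 (volume : Measure X) :=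
    memLp_indicator_const 2 Q_ms 1 (Or.inr (by simp [vol_Q]))
  have h2 := h1.comp_measurePreserving (measurePreserving_sub_right volume a)
  apply h2.of_le
  · exact h2.1.mul (ch_cont b).aestronglyMeasurable
  · filter_upwards with x
    simp [gQ, ch_norm]

noncomputable def uQ (a b : X) : Lp ℂ 2 (volume : Measure X) := (gQ_mem a b).toLp _

lemma uQ_inner (a b : X) (f : Lp ℂ 2 (volume : Measure X)) :
    ⟪uQ a b, f⟫_ℂ = ∫ x, f x * conj (gQ a b x) := by
  rw [L2.inner_def]
  apply integral_congr_ae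
  filter_upwards [(gQ_mem a b).coeFn_toLp] with x hx
  simp only [uQ, hx, RCLike.inner_apply]

lemma uQQ (a b a' b' : X) : ⟪uQ a' b', uQ a b⟫_ℂ = ch a' (b - b') * V (a - a') (b - b') := by
  rw [uQ_inner, V, ← integral_const_mul]
  have e : ∫ x, uQ a b x * conj (gQ a' b' x) = ∫ x, gQ a b x * conj (gQ a' b' x) := by
    apply integral_congr_ae
    filter_upwards [(gQ_mem a b).coeFn_toLp] with x hx
    simp only [uQ, hx]
  rw [e, ← integral_add_right_eq_self _ a']
  congr 1
  ext x
  have e1 : x + a' - a = x - (a - a') := by abel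
  have e2 : conj (Q.indicator (fun _ => (1:ℂ)) x) = Q.indicator (fun _ => (1:ℂ)) x := by
    by_cases c : x ∈ Q <;> simp [c]
  simp only [gQ, map_mul, add_sub_cancel_right, e1, e2]
  have := ch_sub (x + a') b b'
  rw [ch_addl x a' (b - b')] at this
  linear_combination (Q.indicator (fun _ => (1:ℂ)) (x - (a - a')) *
    Q.indicator (fun _ => (1:ℂ)) x) * this

lemma V_meas : Measurable fun z : X × X => V z.1 z.2 := by
  apply StronglyMeasurable.measurable
  apply StronglyMeasurable.integral_prod_right'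
    (f := fun p : (X × X) × X => Q.indicator (fun _ => (1:ℂ)) (p.2 - p.1.1) *
      Q.indicator (fun _ => (1:ℂ)) p.2 * ch p.2 p.1.2)
  apply Measurable.stronglyMeasurable
  have h : Measurable (Q.indicator (fun _ => (1:ℂ))) := measurable_const.indicator Q_ms
  refine ((h.comp (by fun_prop)).mul (h.comp measurable_snd)).mul ?_
  exact ch_cont2.measurable.comp (f := fun p : (X × X) × X => (p.2, p.1.2)) (by fun_prop)

lemma V_int (τ β : X) (hτ : ∀ i, |τ i| < 1) (n : Z) (hn : n ≠ 0) :
    V (τ + vec (2 • n)) β = 0 := by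
  obtain ⟨i, hi⟩ := Function.ne_iff.1 hn
  apply V_far _ _ i
  have h := abs_lt.1 (hτ i)
  simp only [PiLp.add_apply, vec_ap, two_smul, Pi.add_apply]
  push_cast
  rcases lt_or_gt_of_ne hi with c | c
  · have : n i ≤ -1 := by simp only [Pi.zero_apply] at c; omega
    have : (n i : ℝ) ≤ -1 := by exact_mod_cast this
    exact le_abs'.2 (Or.inl (by linarith))
  · have : 1 ≤ n i := by simp only [Pi.zero_apply] at c; omega
    have : (1 : ℝ) ≤ n i := by exact_mod_cast this
    exact le_abs'.2 (Or.inr (by linarith))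

lemma V_lat (n m : Z) : V (vec n) (vec m) = if n = 0 ∧ m = 0 then 1 else 0 := by
  by_cases hn : n = 0
  · subst hn
    rw [vec_zero, V_zero]
    by_cases hm : m = 0
    · simp [hm, vec_zero, qh_zero]
    · simp [hm, qh_vec m hm]
  · obtain ⟨i, hi⟩ := Function.ne_iff.1 hn
    rw [if_neg (fun c => hn c.1)]
    apply V_far _ _ i
    have : 1 ≤ |n i| := Int.one_le_abs hi
    simp only [vec_ap]
    exact_mod_cast this

variable (t : Fin 6 → Z)

def CC : Finset Z := Finset.univ.image fun i => 2 • t i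

def EE : Set X := cl ⁻¹' (CC t : Set Z)

noncomputable def uE (a b : X) : Lp ℂ 2 (volume : Measure X) := ∑ i, uQ (a + vec (2 • t i)) b

noncomputable def KK (z : X × X) : ℂ := ∑ i, ch (vec (2 • t i)) z.2 * V (z.1 - vec (2 • t i)) z.2

lemma KK_meas : Measurable (KK t) := by
  apply Finset.measurable_sum
  intro i _
  refine Measurable.mul ?_ ?_
  · exact ch_cont2.measurable.comp (f := fun z : X × X => (vec (2 • t i), z.2)) (by fun_prop)
  · exact V_meas.comp (f := fun z : X × X => (z.1 - vec (2 • t i), z.2)) (by fun_prop)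

lemma uEQ (s z : X × X) : ⟪uE t s.1 s.2, uQ z.1 z.2⟫_ℂ = ch s.1 (z.2 - s.2) * KK t (z - s) := by
  simp only [uE, KK, sum_inner, uQQ, Finset.mul_sum, ch_addl, Prod.fst_sub, Prod.snd_sub]
  apply Finset.sum_congr rfl
  intro i _
  rw [sub_add_eq_sub_sub]; ring

variable {t}

lemma inj2 (hi : Function.Injective t) : Function.Injective fun i => 2 • t i := by
  intro i j h
  apply hi
  ext k
  have := congrFun h k
  simp only [Pi.smul_apply, nsmul_eq_mul] at this
  omega

lemma gE_sum (hi : Function.Injective t) (a b x : X) :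
    (EE t).indicator (fun _ => (1:ℂ)) (x - a) * ch x b = ∑ i, gQ (a + vec (2 • t i)) b x := by
  simp only [gQ, ← Finset.sum_mul]
  congr 1
  have e : ∀ i, Q.indicator (fun _ => (1:ℂ)) (x - (a + vec (2 • t i))) =
      if 2 • t i = cl (x - a) then 1 else 0 := by
    intro i
    rw [← sub_sub]
    simp only [indicator, Q, mem_preimage, cl_sub, mem_singleton_iff, sub_eq_zero]
    simp only [eq_comm]
  simp only [e]
  by_cases c : x - a ∈ EE t
  · rw [indicator_of_mem c]
    obtain ⟨i, -, h⟩ := Finset.mem_image.1 (show cl (x - a) ∈ CC t from c)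
    rw [Finset.sum_eq_single i, if_pos h]
    · intro j _ hj
      exact if_neg fun d => hj (inj2 hi (d.trans h.symm))
    · simp
  · rw [indicator_of_notMem c, Finset.sum_eq_zero]
    intro i _
    exact if_neg fun d => c (show cl (x - a) ∈ CC t from
      Finset.mem_image.2 ⟨i, Finset.mem_univ _, d⟩)

lemma uE_inner (hi : Function.Injective t) (a b : X) (f : Lp ℂ 2 (volume : Measure X)) :
    ⟪uE t a b, f⟫_ℂ = ∫ x, f x * conj ((EE t).indicator (fun _ => (1:ℂ)) (x - a) * ch x b) := by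
  simp only [uE, sum_inner, uQ_inner, gE_sum hi, map_sum, Finset.mul_sum]
  rw [integral_finset_sum]
  intro i _
  exact (Lp.memLp f).integrable_mul (gQ_mem _ _).star

lemma uE_coe (hi : Function.Injective t) (a b : X) :
    ∀ᵐ x, uE t a b x = (EE t).indicator (fun _ => (1:ℂ)) (x - a) * ch x b := by
  have h1 := Lp.coeFn_finsetSum (μ := (volume : Measure X)) Finset.univ
    (fun i => uQ (a + vec (2 • t i)) b)
  have h2 : ∀ᵐ x, ∀ i, uQ (a + vec (2 • t i)) b x = gQ (a + vec (2 • t i)) b x :=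
    ae_all_iff.2 fun i => (gQ_mem _ _).coeFn_toLp
  filter_upwards [h1, h2] with x a1 a2
  rw [gE_sum hi, uE, a1, Finset.sum_apply]
  exact Finset.sum_congr rfl fun i _ => a2 i

lemma uEE (s s' : X × X) (i0 j0 : Fin 6)
    (hτ : ∀ k, |(s.1 + vec (2 • t i0) - (s'.1 + vec (2 • t j0))) k| < 1) :
    ⟪uE t s'.1 s'.2, uE t s.1 s.2⟫_ℂ =
      V (s.1 + vec (2 • t i0) - (s'.1 + vec (2 • t j0))) (s.2 - s'.2) *
      ∑ j, ∑ i, if t i - t j = t i0 - t j0 then ch (s'.1 + vec (2 • t j)) (s.2 - s'.2) else 0 := by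
  simp only [uE, sum_inner, inner_sum, uQQ, Finset.mul_sum]
  rw [Finset.sum_comm]
  refine Finset.sum_congr rfl fun j _ => Finset.sum_congr rfl fun i _ => ?_
  have e : s.1 + vec (2 • t i) - (s'.1 + vec (2 • t j)) =
      s.1 + vec (2 • t i0) - (s'.1 + vec (2 • t j0)) +
        vec (2 • ((t i - t j) - (t i0 - t j0))) := by
    simp only [smul_sub, vec_sub]; abel
  rw [e]
  split_ifs with c
  · rw [c, sub_self, smul_zero, vec_zero, add_zero, mul_comm]
  · rw [V_int _ _ hτ _ (sub_ne_zero.2 c)]; simp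

lemma sum_same (hi : Function.Injective t) (i0 : Fin 6) (F : Fin 6 → ℂ) :
    (∑ j, ∑ i, if t i - t j = t i0 - t i0 then F j else 0) = ∑ j, F j := by
  refine Finset.sum_congr rfl fun j _ => ?_
  simp [sub_eq_zero, hi.eq_iff]

lemma uE_norm (hi : Function.Injective t) (s : X × X) : ⟪uE t s.1 s.2, uE t s.1 s.2⟫_ℂ = 6 := by
  rw [uEE s s 0 0 (by simp), sum_same hi]
  simp [ch_zero, V_zero, qh_zero]

lemma near {x y : X} (hx : x ∈ Q) (hy : y ∈ Q) (k : Fin 3) : |(x - y) k| < 1 := by
  have a := (mem_Q _).1 hx k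
  have b := (mem_Q _).1 hy k
  simp only [PiLp.sub_apply]
  rw [abs_lt]; constructor <;> linarith [a.1, a.2, b.1, b.2]

lemma pack (hs : ∀ i j k l, t i - t j = t k - t l → k ≠ l → i = k ∧ j = l)
    (hi : Function.Injective t) (z s s' : X × X) (i0 j0 : Fin 6)
    (h1 : z.1 - s.1 - vec (2 • t i0) ∈ Q) (h2 : z.1 - s'.1 - vec (2 • t j0) ∈ Q)
    (h3 : z.2 - s.2 ∈ Q) (h4 : z.2 - s'.2 ∈ Q) (ho : ⟪uE t s'.1 s'.2, uE t s.1 s.2⟫_ℂ = 0) :
    i0 = j0 ∧ ∑ j, ch (vec (2 • t j)) (s.2 - s'.2) = 0 := by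
  have hτ : ∀ k, |(s.1 + vec (2 • t i0) - (s'.1 + vec (2 • t j0))) k| < 1 := by
    intro k
    have := near h2 h1 k
    have e : s.1 + vec (2 • t i0) - (s'.1 + vec (2 • t j0)) =
      z.1 - s'.1 - vec (2 • t j0) - (z.1 - s.1 - vec (2 • t i0)) := by abel
    rwa [e]
  have hβ : ∀ k, |(s.2 - s'.2) k| < 1 := by
    intro k
    have := near h4 h3 k
    have e : s.2 - s'.2 = z.2 - s'.2 - (z.2 - s.2) := by abel
    rwa [e]
  rw [uEE s s' i0 j0 hτ] at ho
  have e := (mul_eq_zero.1 ho).resolve_left (V_near _ _ hτ hβ)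
  by_cases c : i0 = j0
  · subst c
    refine ⟨rfl, ?_⟩
    rw [sum_same hi] at e
    simp only [ch_addl, ← Finset.mul_sum] at e
    exact (mul_eq_zero.1 e).resolve_left (ch_ne _ _)
  · exfalso
    rw [Finset.sum_eq_single j0, Finset.sum_eq_single i0, if_pos rfl] at e
    · exact ch_ne _ _ e
    · intro i _ h
      exact if_neg fun d => h (hs _ _ _ _ d c).1
    · simp
    · intro j _ h
      exact Finset.sum_eq_zero fun i _ => if_neg fun d => h (hs _ _ _ _ d c).2
    · simp

lemma mem_EE (x : X) : x ∈ EE t ↔ ∃ i, x - vec (2 • t i) ∈ Q := by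
  simp only [EE, CC, mem_preimage, Finset.mem_coe, Finset.mem_image, Finset.mem_univ, true_and, Q,
    cl_sub, mem_singleton_iff, sub_eq_zero, eq_comm]

lemma card6 (hs : ∀ i j k l, t i - t j = t k - t l → k ≠ l → i = k ∧ j = l)
    (hi : Function.Injective t) (S : Set (X × X))
    (hO : ∀ s ∈ S, ∀ s' ∈ S, s ≠ s' → ⟪uE t s'.1 s'.2, uE t s.1 s.2⟫_ℂ = 0) (z : X × X)
    (F : Finset S) (hF : ∀ s ∈ F, z - s.1 ∈ EE t ×ˢ Q) : F.card ≤ 6 := by
  let r : F → EuclideanSpace ℂ (Fin 6) := fun s => WithLp.toLp 2 fun j => ch (vec (2 • t j)) s.1.1.2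
  have li : LinearIndependent ℂ r := by
    apply linearIndependent_of_ne_zero_of_inner_eq_zero
    · intro s e
      exact ch_ne _ _ (congrArg (fun v : EuclideanSpace ℂ (Fin 6) => v 0) e)
    · intro s s' hne
      obtain ⟨a1, a2⟩ := hF s.1 s.2
      obtain ⟨b1, b2⟩ := hF s'.1 s'.2
      obtain ⟨i, hi1⟩ := (mem_EE _).1 a1
      obtain ⟨j, hj1⟩ := (mem_EE _).1 b1
      have := (pack hs hi z s'.1.1 s.1.1 j i hj1 hi1 b2 a2
        (hO _ s'.1.2 _ s.1.2 fun c => hne (Subtype.ext (Subtype.ext c.symm)))).2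
      rw [← this]
      simp only [r, PiLp.inner_apply, RCLike.inner_apply, ch_sub]
  have := li.fintype_card_le_finrank
  simpa using this

theorem nogabor (hs : ∀ i j k l, t i - t j = t k - t l → k ≠ l → i = k ∧ j = l)
    (hi : Function.Injective t) (h0 : t 0 = 0) (hN : ∀ g : Z → ℕ, ¬ Til g t) (S : Set (X × X))
    (hO : ∀ s ∈ S, ∀ s' ∈ S, s ≠ s' → ⟪uE t s'.1 s'.2, uE t s.1 s.2⟫_ℂ = 0)
    (hC : ∀ f : Lp ℂ 2 (volume : Measure X), (∀ s ∈ S, ⟪uE t s.1 s.2, f⟫_ℂ = 0) → f = 0) :
    False := by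
  classical
  have c6 := card6 hs hi S hO
  have QE : Q ⊆ EE t := fun x hx => (mem_EE x).2 ⟨0, by simpa [h0, vec_zero] using hx⟩
  have fin : ∀ z : X × X, {s : S | z - s.1 ∈ EE t ×ˢ Q}.Finite := by
    intro z
    by_contra c
    obtain ⟨F, hF, hc⟩ := Set.Infinite.exists_subset_card_eq c 7
    have := c6 z F fun s h => hF h
    omega
  haveI : Countable S := by
    rw [← Set.countable_univ_iff]
    refine (Set.countable_iUnion fun n : Z × Z => (fin (vec n.1, vec n.2)).countable).mono ?_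
    intro s _
    refine mem_iUnion.2 ⟨(-cl (-s.1.1), -cl (-s.1.2)), QE ?_, ?_⟩
    · simp only [Prod.fst_sub, Q, mem_preimage, mem_singleton_iff]
      rw [sub_eq_neg_add, cl_add, add_neg_cancel]
    · simp only [Prod.snd_sub, Q, mem_preimage, mem_singleton_iff]
      rw [sub_eq_neg_add, cl_add, add_neg_cancel]
  haveI : (volume : Measure (X × X)).IsAddHaarMeasure := by
    rw [Measure.volume_eq_prod]; infer_instance
  haveI : (volume : Measure (X × X)).IsNegInvariant := by
    haveI : BorelSpace (X × X) := inferInstance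
    haveI : LocallyCompactSpace (X × X) := inferInstance
    haveI : (volume : Measure (X × X)).Regular := inferInstance
    exact Measure.IsAddHaarMeasure.isNegInvariant_of_regular _
  let W : X × X → ℝ≥0∞ := fun z => ENNReal.ofReal (‖KK t z‖ ^ 2)
  have Wm : Measurable W := ((KK_meas t).norm.pow_const 2).ennreal_ofReal
  have nK : ∀ s z : X × X, ‖⟪uE t s.1 s.2, uQ z.1 z.2⟫_ℂ‖ = ‖KK t (z - s)‖ := by
    intro s z; rw [uEQ, norm_mul, ch_norm, one_mul]
  set c : ℝ := (Real.sqrt 6)⁻¹ with hc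
  have hc2 : c * c * 6 = 1 := by
    rw [hc, ← mul_inv, Real.mul_self_sqrt (by norm_num), inv_mul_cancel₀ (by norm_num)]
  have hc2' : (c:ℂ) * c * 6 = 1 := by exact_mod_cast hc2
  have hc0 : (c:ℂ) ≠ 0 := fun e => by simp [e] at hc2'
  let v : S → Lp ℂ 2 (volume : Measure X) := fun s => (c:ℂ) • uE t s.1.1 s.1.2
  have on : Orthonormal ℂ v := by
    rw [orthonormal_iff_ite]
    intro i j
    simp only [v, inner_smul_left, inner_smul_right, Complex.conj_ofReal]
    split_ifs with e
    · subst e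
      rw [uE_norm hi]
      linear_combination hc2'
    · rw [hO j j.2 i i.2 (fun c => e (Subtype.ext c.symm))]; simp
  have cp : (Submodule.span ℂ (range v))ᗮ = ⊥ := by
    rw [Submodule.eq_bot_iff]
    intro g hg
    refine hC g fun s hs => ?_
    have := hg (v ⟨s, hs⟩) (Submodule.subset_span ⟨_, rfl⟩)
    simp only [v, inner_smul_left, Complex.conj_ofReal] at this
    exact (mul_eq_zero.1 this).resolve_left hc0
  let H := HilbertBasis.mkOfOrthogonalEqBot on cp
  have hH : ∀ i, H i = v i := fun i => congrFun (HilbertBasis.coe_mkOfOrthogonalEqBot on cp) i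
  have Par : ∀ z : X × X, ∑' s : S, W (z - s.1) = 6 := by
    intro z
    have h1 := H.hasSum_inner_mul_inner (uQ z.1 z.2) (uQ z.1 z.2)
    rw [uQQ, sub_self, sub_self, ch_zero, V_zero, qh_zero, one_mul] at h1
    have h2 : HasSum (fun s : S => ‖KK t (z - s.1)‖ ^ 2) 6 := by
      have h3 := h1.mul_left 6
      rw [mul_one] at h3
      apply Complex.hasSum_ofReal.1
      refine h3.congr_fun fun s => ?_
      rw [hH, ← inner_conj_symm (uQ z.1 z.2), ← nK, Complex.conj_mul']
      simp only [v, inner_smul_left, Complex.conj_ofReal, norm_mul, Complex.norm_real, mul_pow,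
        Real.norm_eq_abs]
      push_cast
      have : ((|c| : ℝ) : ℂ) ^ 2 = c * c := by
        rw [← Complex.ofReal_pow, sq_abs]; push_cast; ring
      rw [mul_pow, this]
      linear_combination -(‖⟪uE t s.1.1 s.1.2, uQ z.1 z.2⟫_ℂ‖ : ℂ) ^ 2 * hc2'
    rw [← ENNReal.ofReal_tsum_of_nonneg (fun _ => by positivity) h2.summable, h2.tsum_eq]
    simp
  have Bes : ∀ z : X × X, ∑' n : Z × Z, W (z - (vec n.1, vec n.2)) ≤ 6 := by
    intro z
    have o2 : Orthonormal ℂ (fun n : Z × Z => uQ (z.1 - vec n.1) (z.2 - vec n.2)) := by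
      rw [orthonormal_iff_ite]
      intro n m
      have e1 : z.1 - vec m.1 - (z.1 - vec n.1) = vec (n.1 - m.1) := by rw [vec_sub]; abel
      have e2 : z.2 - vec m.2 - (z.2 - vec n.2) = vec (n.2 - m.2) := by rw [vec_sub]; abel
      rw [uQQ, e1, e2, V_lat]
      by_cases e : n = m
      · simp [e, vec_zero, ch_zero]
      · rw [if_neg e, if_neg, mul_zero]
        exact fun d => e (Prod.ext (sub_eq_zero.1 d.1) (sub_eq_zero.1 d.2))
    have b1 := o2.tsum_inner_products_le (uE t 0 0)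
    have b2 := o2.inner_products_summable (uE t 0 0)
    have e : ∀ n : Z × Z, ‖⟪uQ (z.1 - vec n.1) (z.2 - vec n.2), uE t 0 0⟫_ℂ‖ =
        ‖KK t (z - (vec n.1, vec n.2))‖ := by
      intro n
      rw [norm_inner_symm]
      simpa using nK 0 (z - (vec n.1, vec n.2))
    simp only [e] at b1 b2
    have n6 : ‖uE t 0 0‖ ^ 2 = 6 := by
      have : ⟪uE t 0 0, uE t 0 0⟫_ℂ = 6 := uE_norm hi (0 : X × X)
      rw [← inner_self_eq_norm_sq (𝕜 := ℂ), this]
      simp
    rw [← ENNReal.ofReal_tsum_of_nonneg (fun _ => by positivity) b2]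
    rw [n6] at b1
    simpa using ENNReal.ofReal_le_ofReal b1
  let D : X × X → ℝ≥0∞ := (Q ×ˢ Q).indicator 1
  let h : X × X → ℝ≥0∞ := (EE t ×ˢ Q).indicator 1
  have Dm : Measurable D := measurable_one.indicator (Q_ms.prod Q_ms)
  have hm : Measurable h := measurable_one.indicator ((cl_ms _).prod Q_ms)
  have iD : ∫⁻ z, D z = 1 := by
    rw [lintegral_indicator_one (Q_ms.prod Q_ms), Measure.volume_eq_prod, Measure.prod_prod, vol_Q,
      one_mul]
  have ih : ∫⁻ z, h z = 6 := by
    have Em : MeasurableSet (EE t) := cl_ms _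
    rw [lintegral_indicator_one (Em.prod Q_ms), Measure.volume_eq_prod, Measure.prod_prod,
      vol_Q, mul_one, EE, vol_fin, CC, Finset.card_image_of_injective _ (inj2 hi)]
    simp
  have D1 : ∀ y : X × X, ∑' n : Z × Z, D (y - (vec n.1, vec n.2)) = 1 := by
    intro y
    rw [tsum_eq_single (cl y.1, cl y.2)]
    · apply indicator_of_mem
      constructor <;> simp [Q, cl_sub]
    · intro n hn
      apply indicator_of_notMem
      rintro ⟨a, b⟩
      simp only [Prod.fst_sub, Prod.snd_sub, Q, mem_preimage, cl_sub, mem_singleton_iff,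
        sub_eq_zero] at a b
      exact hn (Prod.ext a.symm b.symm)
  have iW : ∫⁻ z, W z ≤ 6 := by
    have := tonelli volume (fun n : Z × Z => (vec n.1, vec n.2)) W D Wm Dm 0
    simp only [D1, mul_one] at this
    rw [this]
    calc _ ≤ ∫⁻ u, D u * 6 := lintegral_mono fun u => mul_le_mul_right (Bes _) _
      _ = 6 := by rw [lintegral_mul_const _ Dm, iD, one_mul]
  let HH : X × X → ℝ≥0∞ := fun z => ∑' s : S, h (z - s.1)
  have Hm : Measurable HH := Measurable.ennreal_tsum fun s => hm.comp (by fun_prop)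
  have H6 : ∀ z, HH z ≤ 6 := by
    intro z
    simp only [HH]
    rw [ENNReal.tsum_eq_iSup_sum]
    refine iSup_le fun F => ?_
    have := c6 z (F.filter fun s => z - s.1 ∈ EE t ×ˢ Q) fun s hs => (Finset.mem_filter.1 hs).2
    calc ∑ s ∈ F, h (z - s.1) = ((F.filter fun s => z - s.1 ∈ EE t ×ˢ Q).card : ℝ≥0∞) := by
          rw [Finset.card_filter]
          push_cast
          exact Finset.sum_congr rfl fun s _ => by simp [h, indicator]
      _ ≤ 6 := by exact_mod_cast this
  have I36 : ∀ z, ∫⁻ u, W u * HH (z - u) = 36 := by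
    intro z
    have := tonelli volume (fun s : S => s.1) h W hm Wm z
    simp only [Par] at this
    rw [← this, lintegral_mul_const _ hm, ih]; norm_num
  have ae1 : ∀ z, ∀ᵐ u, W u = 0 ∨ HH (z - u) ≠ 0 := by
    intro z
    have := ae_eq_of_ae_le_of_lintegral_le (μ := volume) (f := fun u => W u * HH (z - u))
      (g := fun u => W u * 6) (Filter.Eventually.of_forall fun u => mul_le_mul_right (H6 _) _)
      (by rw [I36]; norm_num) (Wm.mul_const _).aemeasurable
      (by
        rw [I36, lintegral_mul_const _ Wm]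
        calc _ ≤ (6 : ℝ≥0∞) * 6 := mul_le_mul_left iW _
          _ = 36 := by norm_num)
    filter_upwards [this] with u hu
    by_contra d
    push_neg at d
    rw [d.2, mul_zero] at hu
    exact d.1 ((mul_eq_zero.1 hu.symm).resolve_right (by norm_num))
  have ex : ∃ u, ∀ p : Z, HH ((vec (2 • p), 0) - u) ≠ 0 := by
    by_contra d
    push_neg at d
    have : ∀ᵐ u, W u * HH (0 - u) = 0 := by
      filter_upwards [ae_all_iff.2 fun p : Z => ae1 (vec (2 • p), 0)] with u hu
      obtain ⟨p, hp⟩ := d u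
      rw [(hu p).resolve_right (not_not.2 hp), zero_mul]
    have e := I36 0
    rw [lintegral_congr_ae this] at e
    simp at e
  obtain ⟨u, hu⟩ := ex
  let A : Set Z := {n | ∃ s ∈ S, (vec (2 • n), 0) - u - s ∈ Q ×ˢ Q}
  have tr : ∀ (p : Z) (i : Fin 6) (s : X × X), ((vec (2 • (p - t i)), (0 : X)) - u - s).1 =
      ((vec (2 • p), (0 : X)) - u).1 - s.1 - vec (2 • t i) := by
    intro p i s
    simp only [Prod.fst_sub, smul_sub, vec_sub]; abel
  apply hN (fun n => if n ∈ A then 1 else 0)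
  intro p
  have : ∃ s : S, h ((vec (2 • p), 0) - u - s.1) ≠ 0 := by
    by_contra d
    push_neg at d
    exact hu p (by simp only [HH, d, tsum_zero])
  obtain ⟨s, hs1⟩ := this
  obtain ⟨a1, a2⟩ := mem_of_indicator_ne_zero hs1
  obtain ⟨i, hi1⟩ := (mem_EE _).1 a1
  have mi : p - t i ∈ A := ⟨s.1, s.2, by rw [tr]; exact hi1, a2⟩
  rw [Finset.sum_eq_single i]
  · exact if_pos mi
  · intro j _ hj
    apply if_neg
    rintro ⟨s', hs', b1, b2⟩
    rw [tr] at b1
    by_cases e : s.1 = s'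
    · subst e
      have q1 : cl (((vec (2 • p), (0 : X)) - u).1 - s.1.1) - 2 • t j = 0 := by
        rw [← cl_sub]; exact b1
      have q2 : cl (((vec (2 • p), (0 : X)) - u).1 - s.1.1) - 2 • t i = 0 := by
        rw [← cl_sub]; exact hi1
      exact hj (inj2 hi ((sub_eq_zero.1 q1).symm.trans (sub_eq_zero.1 q2)))
    · exact hj (pack hs hi ((vec (2 • p), 0) - u) s.1 s' i j hi1 b1 a2 b2
        (hO _ s.2 _ hs' e)).1.symm
  · simp

end Pool.Agent.H.MP_7f688b_an
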