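import Pool.Agent.H.MP_7f688b_an.C

open MeasureTheory Set
open scoped ComplexConjugate InnerProductSpace ENNReal

namespace Pool.Agent.H.MP_7f688b_an

def tt : Fin 6 → Z := ![![0,0,0], ![1,0,0], ![0,1,0], ![0,0,1], ![1,3,0], ![1,0,3]]

def LL : Fin 6 → Z := ![![0,0,0], ![4,3,1], ![6,7,2], ![2,5,4], ![4,1,5], ![0,4,6]]

def dt (a b : Z) : ℤ := a 0 * b 0 + a 1 * b 1 + a 2 * b 2

noncomputable def ll (k : Fin 6) : X := (1 / 16 : ℝ) • vec (LL k)

noncomputable def ζ (n : ℤ) : ℂ := w (n / 8)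

lemma ζ_add (a b : ℤ) : ζ (a + b) = ζ a * ζ b := by
  simp only [ζ, ← w_add]; push_cast; ring_nf

lemma ζ_8 (a : ℤ) : ζ (8 * a) = 1 := by
  rw [ζ, ← w_int a]; push_cast; ring_nf

lemma ζ_4 : ζ 4 = -1 := by rw [ζ, ← w_half]; norm_num

lemma ζ_0 : ζ 0 = 1 := by simp [ζ, w_zero]

def sg (n : ℤ) (r : Fin 4) : ℤ := if n % 8 = r then 1 else if n % 8 = r + 4 then -1 else 0

lemma ζ_sg (n : ℤ) : ζ n = ∑ r : Fin 4, (sg n r : ℂ) * ζ r := by
  have e : ζ n = ζ (n % 8) := by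
    conv_lhs => rw [← Int.mul_ediv_add_emod n 8, ζ_add, ζ_8, one_mul]
  have h1 : 0 ≤ n % 8 := Int.emod_nonneg _ (by norm_num)
  have h2 : n % 8 < 8 := Int.emod_lt_of_pos _ (by norm_num)
  have a5 : ζ 5 = -ζ 1 := by rw [show (5:ℤ) = 4 + 1 from rfl, ζ_add, ζ_4]; ring
  have a6 : ζ 6 = -ζ 2 := by rw [show (6:ℤ) = 4 + 2 from rfl, ζ_add, ζ_4]; ring
  have a7 : ζ 7 = -ζ 3 := by rw [show (7:ℤ) = 4 + 3 from rfl, ζ_add, ζ_4]; ring
  rw [e]
  simp only [sg, Fin.sum_univ_four]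
  generalize n % 8 = m at h1 h2
  interval_cases m <;> simp [ζ_4, ζ_0, a5, a6, a7]

lemma van (e : Fin 6 → ℤ) (h : ∀ r : Fin 4, ∑ i, sg (e i) r = 0) : ∑ i, ζ (e i) = 0 := by
  simp only [fun i => ζ_sg (e i)]
  rw [Finset.sum_comm]
  apply Finset.sum_eq_zero
  intro r _
  rw [← Finset.sum_mul, ← Int.cast_sum, h r]; simp

lemma ch_tl (a b : Z) : ch (vec (2 • a)) ((1 / 16 : ℝ) • vec b) = ζ (dt a b) := by
  rw [ch_eq, ζ, dt]
  simp only [vec_ap, two_smul, Pi.add_apply, PiLp.smul_apply, smul_eq_mul]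
  push_cast; ring_nf

lemma t_inj : Function.Injective tt := by
  intro i j; revert i j; decide +kernel

lemma t_sid : ∀ i j k l, tt i - tt j = tt k - tt l → k ≠ l → i = k ∧ j = l := by
  decide +kernel

lemma colo : ∀ k k' : Fin 6, k ≠ k' → ∀ r : Fin 4, ∑ i, sg (dt (tt i) (LL k - LL k')) r = 0 := by
  decide +kernel

lemma rowo : ∀ i j : Fin 6, i ≠ j → ∀ r : Fin 4,
    ∑ k, sg (dt (tt i) (LL k) + -dt (tt j) (LL k)) r = 0 := by
  decide +kernel

lemma sumCC (F : Z → ℂ) : ∑ c ∈ CC tt, F c = ∑ i, F (2 • tt i) := by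
  rw [CC, Finset.sum_image fun i _ j _ h => inj2 t_inj h]

lemma orth (k k' : Fin 6) (n n' : Z) (h : ll k + vec n ≠ ll k' + vec n') :
    ∫ x in EE tt, ch x (ll k + vec n - (ll k' + vec n')) = 0 := by
  rw [EE, int_ch, sumCC]
  by_cases c : k = k'
  · subst c
    have e : ll k + vec n - (ll k + vec n') = vec (n - n') := by rw [vec_sub]; abel
    rw [e, qh_vec _ (sub_ne_zero.2 fun d => h (by rw [d])), mul_zero]
  · have e : ll k + vec n - (ll k' + vec n') =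
        (1 / 16 : ℝ) • vec (LL k - LL k') + vec (n - n') := by
      simp only [vec_sub, ll, smul_sub]; abel
    simp only [e, ch_addr, ch_vec, mul_one, ch_tl]
    rw [van _ (colo k k' c), zero_mul]

lemma hadam (φ : Z → ℂ) (h : ∀ k, ∑ e ∈ CC tt, φ e * ch (vec e) (ll k) = 0) :
    ∀ c ∈ CC tt, φ c = 0 := by
  intro c hc
  obtain ⟨j, -, rfl⟩ := Finset.mem_image.1 hc
  simp only [sumCC, ll, ch_tl] at h
  have e : ∑ k, (∑ i, φ (2 • tt i) * ζ (dt (tt i) (LL k))) * ζ (-dt (tt j) (LL k)) = 0 := by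
    simp only [h, zero_mul, Finset.sum_const_zero]
  simp only [Finset.sum_mul, mul_assoc, ← ζ_add] at e
  rw [Finset.sum_comm] at e
  simp only [← Finset.mul_sum] at e
  rw [Finset.sum_eq_single j] at e
  · simpa [ζ_0] using e
  · intro i _ hi
    rw [van _ (rowo i j hi), mul_zero]
  · simp

lemma notil (g : Z → ℕ) : ¬ Til g tt :=
  notile g tt (by decide +kernel) (by decide +kernel) (by decide +kernel)

end Pool.Agent.H.MP_7f688b_an
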